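import Pool.Agent.helper87.UN.SpecL

/-! Row unh:LMM (MP_cf4097_nt); adapted from `Pool/Agent/helper98/FL/ZLA.lean` -/

set_option autoImplicit false

open NumberField Complex

namespace Pool.Agent.UN

noncomputable section

open MeasureTheory Set in
/-- The strong FE-pair of `h` and its conjugate. -/
def LMM_P (h : ℝ → ℂ) (k : ℝ) (ε : ℂ) (hk : 0 < k) (hε : ‖ε‖ = 1) (hc : ContinuousOn h (Ioi 0))
    (hd : ∀ r : ℝ, h =O[Filter.atTop] (fun x : ℝ => x ^ r))
    (he : ∀ x : ℝ, 0 < x → h (1 / x) = ε * ((x ^ k : ℝ) : ℂ) * (starRingEnd ℂ) (h x)) : WeakFEPair ℂ where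
  f := h
  g := fun x => (starRingEnd ℂ) (h x)
  k := k
  ε := ε
  f₀ := 0
  g₀ := 0
  hf_int := hc.locallyIntegrableOn measurableSet_Ioi
  hg_int := (Complex.continuous_conj.comp_continuousOn hc).locallyIntegrableOn measurableSet_Ioi
  hk := hk
  hε := by
    intro h0
    rw [h0, norm_zero] at hε
    exact zero_ne_one hε
  h_feq := by
    intro x hx
    rw [he x hx, smul_eq_mul]
  hf_top := by
    intro r
    simp only [sub_zero]
    exact hd r
  hg_top := by
    intro r
    simp only [sub_zero]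
    refine Asymptotics.IsBigO.trans ?_ (hd r)
    refine Asymptotics.IsBigO.of_bound 1 (Filter.Eventually.of_forall fun x => ?_)
    rw [RCLike.norm_conj, one_mul]

open MeasureTheory Set in
theorem LMM_conj (h : ℝ → ℂ) (s : ℂ) :
    mellin (fun x : ℝ => (starRingEnd ℂ) (h x)) s = (starRingEnd ℂ) (mellin h ((starRingEnd ℂ) s)) := by
  unfold mellin
  rw [← integral_conj]
  apply setIntegral_congr_fun measurableSet_Ioi
  intro t ht
  have ht0 : 0 < t := ht
  beta_reduce
  rw [smul_eq_mul, smul_eq_mul, map_mul]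
  congr 1
  have harg : (t : ℂ).arg ≠ Real.pi := by
    rw [Complex.arg_ofReal_of_nonneg ht0.le]
    exact Real.pi_pos.ne
  have h1 : (starRingEnd ℂ) s - 1 = (starRingEnd ℂ) (s - 1) := by simp
  rw [h1, Complex.cpow_conj _ _ harg, Complex.conj_ofReal, Complex.conj_conj]

open MeasureTheory Set in
theorem LMM : LMM_stmt := by
  intro h k ε hk hε hc hd he
  have hP : IsStrongFEPair (LMM_P h k ε hk hε hc hd he) := ⟨rfl, rfl⟩
  have hL : (LMM_P h k ε hk hε hc hd he).Λ = mellin h := hP.Λ_eq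
  have hL' : (LMM_P h k ε hk hε hc hd he).symm.Λ = mellin (fun x : ℝ => (starRingEnd ℂ) (h x)) := hP.symm_Λ_eq
  have hM : ∀ s : ℂ, MellinConvergent h s := fun s => (hP.hasMellin s).1
  refine ⟨?_, ?_, ?_⟩
  · rw [← hL]
    exact hP.differentiable_Λ
  · intro z
    have h1 := (LMM_P h k ε hk hε hc hd he).functional_equation (k - z)
    rw [hL, hL'] at h1
    have e1 : (((LMM_P h k ε hk hε hc hd he).k : ℝ) : ℂ) = (k : ℂ) := rfl
    have e2 : (LMM_P h k ε hk hε hc hd he).ε = ε := rfl
    rw [e1, e2, LMM_conj, smul_eq_mul, sub_sub_cancel, map_sub, Complex.conj_ofReal] at h1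
    exact h1
  · intro A
    refine ⟨∫ t in Ioi (0 : ℝ), (‖(t : ℂ) ^ ((A : ℂ) - 1) • h t‖ +
      ‖(t : ℂ) ^ (((-A : ℝ) : ℂ) - 1) • h t‖), ?_⟩
    intro s hs
    unfold mellin
    apply norm_integral_le_of_norm_le
    · exact (hM (A : ℂ)).norm.add (hM ((-A : ℝ) : ℂ)).norm
    · rw [ae_restrict_iff' measurableSet_Ioi]
      apply Filter.Eventually.of_forall
      intro t ht
      have ht0 : 0 < t := ht
      obtain ⟨h1, h2⟩ := abs_le.1 hs
      rw [norm_smul, norm_smul, norm_smul, Complex.norm_cpow_eq_rpow_re_of_pos ht0,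
        Complex.norm_cpow_eq_rpow_re_of_pos ht0, Complex.norm_cpow_eq_rpow_re_of_pos ht0, ← add_mul]
      apply mul_le_mul_of_nonneg_right _ (norm_nonneg _)
      simp only [Complex.sub_re, Complex.one_re, Complex.ofReal_re]
      have p1 : 0 < t ^ (A - 1) := Real.rpow_pos_of_pos ht0 _
      have p2 : 0 < t ^ (-A - 1) := Real.rpow_pos_of_pos ht0 _
      rcases le_total 1 t with h3 | h3
      · have := Real.rpow_le_rpow_of_exponent_le h3 (show s.re - 1 ≤ A - 1 by linarith)
        linarith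
      · have := Real.rpow_le_rpow_of_exponent_ge ht0 h3 (show -A - 1 ≤ s.re - 1 by linarith)
        linarith

end

end Pool.Agent.UN
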